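import Pool.Agent.K1H88.GT.Stm
import Pool.Agent.H38R2.CG.PV

/-! Piece JS of the project GT: sums of Jacobi symbols with a fixed numerator over the odd moduli. -/

set_option autoImplicit false

namespace Pool.Agent.K1H59.GT

open Finset Pool.Agent.K1H88.GT

theorem odd_mod {N m : ℕ} : Odd (m % (4 * N)) ↔ Odd m := by
  rw [Nat.odd_iff, Nat.odd_iff]
  have h : m % (4 * N) % 2 = m % 2 := Nat.mod_mod_of_dvd m ⟨2 * N, by ring⟩
  rw [h]

/-- the Jacobi symbol with numerator `N` (odd denominators) as a Dirichlet character -/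
noncomputable def xchar (N : ℕ) [NeZero (4 * N)] : DirichletCharacter ℂ (4 * N) where
  toFun x := if Odd x.val then ((jacobiSym (N : ℤ) x.val : ℤ) : ℂ) else 0
  map_one' := by
    have h4 : 1 < 4 * N := by
      have := NeZero.ne (4 * N)
      omega
    have h : (1 : ZMod (4 * N)).val = 1 := by
      rw [ZMod.val_one_eq_one_mod, Nat.mod_eq_of_lt h4]
    rw [h, if_pos odd_one, jacobiSym.one_right]
    norm_num
  map_mul' x y := by
    rw [ZMod.val_mul]
    by_cases hx : Odd x.val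
    · by_cases hy : Odd y.val
      · have hxy : Odd (x.val * y.val) := hx.mul hy
        rw [if_pos (odd_mod.mpr hxy), if_pos hx, if_pos hy, ← jacobiSym.mod_right' N hxy,
          jacobiSym.mul_right' _ (Nat.ne_of_odd_add (by simpa using hx))
            (Nat.ne_of_odd_add (by simpa using hy))]
        push_cast
        rfl
      · rw [if_neg hy, mul_zero, if_neg]
        rw [odd_mod, Nat.odd_mul]
        exact fun h => hy h.2
    · rw [if_neg hx, zero_mul, if_neg]
      rw [odd_mod, Nat.odd_mul]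
      exact fun h => hx h.1
  map_nonunit' x hx := by
    split_ifs with ho
    · have h0 : x.val ≠ 0 := by
        intro h
        rw [h] at ho
        exact absurd ho (by decide)
      have : NeZero x.val := ⟨h0⟩
      have h1 : jacobiSym (N : ℤ) x.val = 0 := by
        rw [jacobiSym.eq_zero_iff_not_coprime, Int.gcd_natCast_natCast]
        intro h
        apply hx
        have h2 : Nat.Coprime x.val (4 * N) := by
          apply Nat.Coprime.mul_right
          · have h3 : Nat.Coprime x.val 2 := Nat.Coprime.symm (Nat.coprime_two_left.mpr ho)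
            exact Nat.Coprime.pow_right 2 h3
          · exact Nat.Coprime.symm h
        have h3 := (ZMod.isUnit_iff_coprime x.val (4 * N)).mpr h2
        rwa [ZMod.natCast_zmod_val] at h3
      rw [h1]
      norm_num
    · rfl

theorem xchar_apply (N : ℕ) [NeZero (4 * N)] (m : ℕ) :
    xchar N (m : ZMod (4 * N)) = if Odd m then ((jacobiSym (N : ℤ) m : ℤ) : ℂ) else 0 := by
  have h : xchar N (m : ZMod (4 * N)) = if Odd (m : ZMod (4 * N)).val then
    ((jacobiSym (N : ℤ) (m : ZMod (4 * N)).val : ℤ) : ℂ) else 0 := rfl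
  rw [h, ZMod.val_natCast]
  by_cases hm : Odd m
  · rw [if_pos (odd_mod.mpr hm), if_pos hm, ← jacobiSym.mod_right' N hm]
  · rw [if_neg (fun h => hm (odd_mod.mp h)), if_neg hm]

theorem js_one_mod {N m : ℕ} (hN : N ≠ 0) (ho : Odd m) (h : m ≡ 1 [MOD 4 * N]) :
    jacobiSym (N : ℤ) m = 1 := by
  rw [jacobiSym.mod_right' N ho]
  have h1 : m % (4 * N) = 1 := by
    have h2 : m % (4 * N) = 1 % (4 * N) := h
    rw [h2, Nat.mod_eq_of_lt (by omega)]
  rw [h1, jacobiSym.one_right]

/-- an odd prime of odd multiplicity -/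
theorem case_odd {l e K : ℕ} (hl : l.Prime) (hl2 : l ≠ 2) (hK : K ≠ 0) (hlK : ¬ l ∣ K)
    (he : Odd e) : ∃ m : ℕ, Odd m ∧ jacobiSym ((l ^ e * K : ℕ) : ℤ) m = -1 := by
  have hFact := Fact.mk hl
  have hNZ : NeZero l := ⟨hl.ne_zero⟩
  have hlo : Odd l := hl.odd_of_ne_two hl2
  have hco : Nat.Coprime l (4 * K) := by
    apply Nat.Coprime.mul_right
    · have h3 : Nat.Coprime l 2 := Nat.Coprime.symm (Nat.coprime_two_left.mpr hlo)
      exact Nat.Coprime.pow_right 2 h3
    · exact (Nat.Prime.coprime_iff_not_dvd hl).mpr hlK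
  obtain ⟨c, hc⟩ : ∃ c : ZMod l, quadraticChar (ZMod l) c = -1 := by
    apply quadraticChar_exists_neg_one
    rw [ZMod.ringChar_zmod_n]
    exact hl2
  obtain ⟨m, hm1, hm2⟩ := Nat.chineseRemainder hco c.val 1
  have hm4 : m ≡ 1 [MOD 4] := hm2.of_mul_right K
  have hm4' : m % 4 = 1 := hm4
  have hmo : Odd m := by
    rw [Nat.odd_iff]
    omega
  refine ⟨m, hmo, ?_⟩
  have e1 : jacobiSym (l : ℤ) m = -1 := by
    rw [jacobiSym.quadratic_reciprocity_one_mod_four' hlo hm4',
      ← jacobiSym.legendreSym.to_jacobiSym, legendreSym]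
    push_cast
    have : (m : ZMod l) = c := by
      have h3 := (ZMod.natCast_eq_natCast_iff m c.val l).mpr hm1
      rw [h3, ZMod.natCast_zmod_val]
    rw [this]
    exact hc
  push_cast
  rw [jacobiSym.mul_left, jacobiSym.pow_left, e1, js_one_mod hK hmo hm2, he.neg_one_pow]
  norm_num

theorem case_two {f K : ℕ} (hK : Odd K) :
    ∃ m : ℕ, Odd m ∧ jacobiSym ((2 ^ (2 * f + 1) * K ^ 2 : ℕ) : ℤ) m = -1 := by
  have hco : Nat.Coprime 8 K := by
    have h3 : Nat.Coprime 2 K := Nat.coprime_two_left.mpr hK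
    exact Nat.Coprime.pow_left 3 h3
  obtain ⟨m, hm1, hm2⟩ := Nat.chineseRemainder hco 5 1
  have hm8 : m % 8 = 5 := hm1
  have hmo : Odd m := by
    rw [Nat.odd_iff]
    omega
  refine ⟨m, hmo, ?_⟩
  have e1 : jacobiSym 2 m = -1 := by
    rw [jacobiSym.at_two hmo, ZMod.χ₈_nat_mod_eight, hm8]
    decide
  have e2 : (K : ℤ).gcd (m : ℤ) = 1 := by
    rw [Int.gcd_natCast_natCast]
    have h4 : Nat.gcd m K = Nat.gcd 1 K := hm2.gcd_eq
    rw [Nat.gcd_comm, h4, Nat.gcd_one_left]
  push_cast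
  rw [jacobiSym.mul_left, jacobiSym.pow_left, jacobiSym.pow_left, e1, jacobiSym.sq_one e2,
    Odd.neg_one_pow ⟨f, rfl⟩]
  norm_num

theorem exists_neg {N : ℕ} (hN : ¬ IsSquare N) : ∃ m : ℕ, Odd m ∧ jacobiSym (N : ℤ) m = -1 := by
  have hN0 : N ≠ 0 := by
    rintro rfl
    exact hN (IsSquare.zero)
  obtain ⟨a, b, hab, ha⟩ := Nat.sq_mul_squarefree N
  have hb0 : b ≠ 0 := by
    rintro rfl
    apply hN0
    rw [← hab]; ring
  have ha1 : a ≠ 1 := by
    rintro rfl
    apply hN
    rw [← hab, mul_one]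
    exact ⟨b, sq b⟩
  by_cases hex : ∃ l : ℕ, l.Prime ∧ l ≠ 2 ∧ l ∣ a
  · obtain ⟨l, hl, hl2, a', ha'⟩ := hex
    have hla' : ¬ l ∣ a' := by
      intro h
      have h2 : l * l ∣ a := by rw [ha']; exact Nat.mul_dvd_mul_left l h
      have := ha l h2
      exact hl.one_lt.ne' (Nat.isUnit_iff.mp this)
    obtain ⟨f, b', hb', hbb⟩ := Nat.exists_eq_pow_mul_and_not_dvd hb0 l hl.ne_one
    have hb'0 : b' ≠ 0 := by
      rintro rfl
      exact hb' (dvd_zero _)
    have ha'0 : a' ≠ 0 := by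
      rintro rfl
      exact hla' (dvd_zero _)
    have hK : ¬ l ∣ b' ^ 2 * a' := by
      intro h
      rcases (Nat.Prime.dvd_mul hl).mp h with h | h
      · exact hb' (hl.dvd_of_dvd_pow h)
      · exact hla' h
    have e : N = l ^ (2 * f + 1) * (b' ^ 2 * a') := by
      rw [← hab, hbb, ha']
      ring
    rw [e]
    exact case_odd hl hl2 (mul_ne_zero (pow_ne_zero _ hb'0) ha'0) hK ⟨f, rfl⟩
  · have ha2 : a = 2 := by
      obtain ⟨p, hp, hpa⟩ := Nat.exists_prime_and_dvd ha1
      have hp2 : p = 2 := by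
        by_contra h
        exact hex ⟨p, hp, h, hpa⟩
      obtain ⟨a', ha'⟩ := hpa
      rw [hp2] at ha'
      by_cases h1 : a' = 1
      · rw [ha', h1]
      · exfalso
        obtain ⟨q, hq, hqa⟩ := Nat.exists_prime_and_dvd h1
        have hq2 : q = 2 := by
          by_contra h
          exact hex ⟨q, hq, h, by rw [ha']; exact Dvd.dvd.mul_left hqa 2⟩
        rw [hq2] at hqa
        have h2 : 2 * 2 ∣ a := by rw [ha']; exact Nat.mul_dvd_mul_left 2 hqa
        have := Nat.isUnit_iff.mp (ha 2 h2)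
        omega
    obtain ⟨f, b', hb', hbb⟩ := Nat.exists_eq_pow_mul_and_not_dvd hb0 2 (by norm_num)
    have e : N = 2 ^ (2 * f + 1) * b' ^ 2 := by
      rw [← hab, hbb, ha2]
      ring
    rw [e]
    apply case_two
    rw [← Nat.not_even_iff_odd, even_iff_two_dvd]
    exact hb'

theorem t_JS : S_JS := by
  refine ⟨24, by norm_num, fun N Q hN => ?_⟩
  have hN0 : N ≠ 0 := by
    rintro rfl
    exact hN (IsSquare.zero)
  have hNZ : NeZero (4 * N) := ⟨by omega⟩
  obtain ⟨m, hm, hm1⟩ := exists_neg hN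
  have hχ : xchar N ≠ 1 := by
    intro h
    have h1 := xchar_apply N m
    rw [if_pos hm, hm1, h] at h1
    by_cases hu : IsUnit (m : ZMod (4 * N))
    · rw [MulChar.one_apply hu] at h1
      norm_num at h1
    · rw [MulChar.map_nonunit _ hu] at h1
      norm_num at h1
  have h1 := Pool.Agent.H38R2.CG.PVh.sum_le (4 * N) (xchar N) (by omega) hχ Q
  have h2 : ∑ n ∈ Icc 1 Q, xchar N (n : ZMod (4 * N)) =
      ((∑ m ∈ (Icc 1 Q).filter (fun m => Odd m), jacobiSym (N : ℤ) m : ℤ) : ℂ) := by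
    rw [sum_filter]
    push_cast
    apply sum_congr rfl
    intro a _
    rw [xchar_apply]
  rw [h2, Complex.norm_intCast] at h1
  refine h1.trans ?_
  have hN1 : (1 : ℝ) ≤ N := by exact_mod_cast Nat.pos_of_ne_zero hN0
  have h3 : √(((4 * N : ℕ) : ℝ)) = 2 * √(N : ℝ) := by
    push_cast
    rw [Real.sqrt_mul (by norm_num : (0 : ℝ) ≤ 4)]
    congr 1
    rw [show (4 : ℝ) = 2 ^ 2 by norm_num, Real.sqrt_sq (by norm_num)]
  have h4 : Real.log ((4 * N : ℕ) : ℝ) = Real.log 4 + Real.log N := by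
    push_cast
    rw [Real.log_mul (by norm_num) (by linarith)]
  have h5 : Real.log 4 ≤ 2 := by
    rw [show (4 : ℝ) = 2 ^ 2 by norm_num, Real.log_pow]
    have := Real.log_two_lt_d9
    push_cast
    linarith
  have h6 : 0 ≤ Real.log (N : ℝ) := Real.log_nonneg hN1
  rw [h3, h4]
  have h7 : 0 ≤ √(N : ℝ) := Real.sqrt_nonneg _
  nlinarith [mul_nonneg h7 h6]

end Pool.Agent.K1H59.GT
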